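import Mathlib
import Pool.Agent.X94.Lim

/-! # MP_efe010_an: a parameter pair below the curve for which every solution converges -/

namespace Pool.Agent.Results.MP_efe010_an.AlwaysConverges

open Filter Topology

/-- `x` (indexed from `0`, so `x 0, x 1, x 2` are the initial values) is a solution with
nonnegative initial values. -/
def IsSolution (α A : ℝ) (x : ℕ → ℝ) : Prop :=
  0 ≤ x 0 ∧ 0 ≤ x 1 ∧ 0 ≤ x 2 ∧ ∀ n, x (n + 3) = (α + x n) / (A + x (n + 2))

/-- `p` is periodic. -/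
def IsPeriodic (p : ℕ → ℝ) : Prop := ∃ T : ℕ, 1 ≤ T ∧ ∀ n, p (n + T) = p n

/-- The nonnegative equilibrium. -/
noncomputable def xbar (α A : ℝ) : ℝ := (1 - A + Real.sqrt ((1 - A) ^ 2 + 4 * α)) / 2

/-- The upper curve. -/
noncomputable def alphaPlus (A : ℝ) : ℝ := (2 - A + Real.sqrt (5 * A ^ 2 - 4 * A ^ 3)) / 2

/-- The assertion of the question. -/
def Q1 : Prop :=
  ∀ A : ℝ, 0 < A → A < 1 → ∀ α : ℝ, 0 < α → α < alphaPlus A →
    ∃ x : ℕ → ℝ, IsSolution α A x ∧ ¬ Tendsto x atTop (𝓝 (xbar α A)) ∧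
      ∀ p : ℕ → ℝ, IsSolution α A p → IsPeriodic p →
        ¬ Tendsto (fun n => x n - p n) atTop (𝓝 0)

lemma contra {M u v w : ℝ} (hM : 3 ≤ M) (hu : 0 ≤ u) (hv : 0 ≤ v)
    (h1 : M * (99 / 100 + u) ≤ 1 + M) (h2 : 1 ≤ u * (99 / 100 + v))
    (h3 : v * (99 / 100 + w) ≤ 1 + M) (h4 : 99 / 100 * M - 1 ≤ w) : False := by
  have hu' : u ≤ 3434 / 10000 := by
    by_contra hc
    push Not at hc
    nlinarith
  have hv' : v ≤ 136 / 100 := by
    by_contra hc
    push Not at hc
    have h5 : v * (99 / 100 * M - 1 / 100) ≤ 1 + M := by nlinarith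
    nlinarith
  nlinarith

lemma nonneg {x : ℕ → ℝ} (hx : IsSolution 1 (99 / 100) x) : ∀ n, 0 ≤ x n := by
  obtain ⟨h0, h1, h2, hr⟩ := hx
  intro n
  induction n using Nat.strong_induction_on with
  | _ n ih =>
    rcases n with _ | _ | _ | n
    · exact h0
    · exact h1
    · exact h2
    · rw [hr n]
      have a := ih n (by omega)
      have b := ih (n + 2) (by omega)
      positivity

lemma recur {x : ℕ → ℝ} (hx : IsSolution 1 (99 / 100) x) (n : ℕ) :
    x (n + 3) * (99 / 100 + x (n + 2)) = 1 + x n := by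
  have h0 := nonneg hx (n + 2)
  rw [hx.2.2.2 n]
  field_simp

lemma bounded {x : ℕ → ℝ} (hx : IsSolution 1 (99 / 100) x) : ∃ M, ∀ n, x n ≤ M := by
  have h0 := nonneg hx
  refine ⟨3 + x 0 + x 1 + x 2 + x 3 + x 4 + x 5, ?_⟩
  set M := 3 + x 0 + x 1 + x 2 + x 3 + x 4 + x 5 with hM
  have hM3 : 3 ≤ M := by
    have := h0 0; have := h0 1; have := h0 2; have := h0 3; have := h0 4; have := h0 5
    linarith
  intro n
  induction n using Nat.strong_induction_on with
  | _ n ih =>
    rcases n with _ | _ | _ | _ | _ | _ | n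
    · have := h0 0; have := h0 1; have := h0 2; have := h0 3; have := h0 4; have := h0 5
      linarith
    · have := h0 0; have := h0 1; have := h0 2; have := h0 3; have := h0 4; have := h0 5
      simp only [Nat.zero_add]; linarith
    · have := h0 0; have := h0 1; have := h0 2; have := h0 3; have := h0 4; have := h0 5
      simp only [Nat.zero_add, Nat.reduceAdd]; linarith
    · have := h0 0; have := h0 1; have := h0 2; have := h0 3; have := h0 4; have := h0 5
      simp only [Nat.zero_add, Nat.reduceAdd]; linarith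
    · have := h0 0; have := h0 1; have := h0 2; have := h0 3; have := h0 4; have := h0 5
      simp only [Nat.zero_add, Nat.reduceAdd]; linarith
    · have := h0 0; have := h0 1; have := h0 2; have := h0 3; have := h0 4; have := h0 5
      simp only [Nat.zero_add, Nat.reduceAdd]; linarith
    · by_contra hc
      push Not at hc
      have e0 := recur hx (n + 3)
      have e1 := recur hx (n + 2)
      have e2 := recur hx (n + 1)
      have i3 := ih (n + 3) (by omega)
      have i1 := ih (n + 1) (by omega)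
      have u0 := h0 (n + 5)
      have v0 := h0 (n + 4)
      have w0 := h0 (n + 2)
      simp only [Nat.add_assoc, Nat.reduceAdd] at e0 e1 e2 hc
      refine contra (M := M) (u := x (n + 5)) (v := x (n + 4)) (w := x (n + 3)) hM3 u0 v0
        ?_ ?_ ?_ ?_
      · nlinarith
      · linarith
      · linarith
      · nlinarith

/-- The inequality argument: the limits of the shifts force `S ≤ I`. -/
lemma squeeze {S I l1 l2 l3 l4 l5 m1 m3 : ℝ} (hI0 : 0 ≤ I) (hIS : I ≤ S)
    (a0 : S * (99 / 100 + l1) = 1 + l3) (a1 : l1 * (99 / 100 + l2) = 1 + l4)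
    (a2 : l2 * (99 / 100 + l3) = 1 + l5) (b0 : I * (99 / 100 + m1) = 1 + m3)
    (h1 : I ≤ l1) (h2 : I ≤ l2) (h3 : I ≤ l3) (h4 : I ≤ l4)
    (g1 : l1 ≤ S) (g2 : l2 ≤ S) (g3 : l3 ≤ S) (g5 : l5 ≤ S) (k1 : m1 ≤ S) (k3 : I ≤ m3) :
    S = I ∧ I * I - 1 / 100 * I - 1 = 0 := by
  have hS0 : 0 ≤ S := le_trans hI0 hIS
  have hQ : 0 ≤ I * (99 / 100 + S) - 1 - I := by
    have := mul_le_mul_of_nonneg_left k1 hI0
    linarith
  have hP : 0 ≤ 1 + S - S * (99 / 100 + I) := by
    have := mul_le_mul_of_nonneg_left h1 hS0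
    linarith
  have hS3 : S ≤ 3 := by
    by_contra hc
    push Not at hc
    refine contra (M := S) (u := l1) (v := l2) (w := l3) hc.le (by linarith) (by linarith)
      ?_ ?_ ?_ ?_
    · linarith
    · linarith
    · linarith
    · have := mul_nonneg hS0 (hI0.trans h1)
      linarith
  have hS1 : 1 ≤ S := by
    have := mul_le_mul_of_nonneg_right hIS hS0
    nlinarith
  have hI3 : 1 / 3 ≤ I := by
    have := mul_le_mul_of_nonneg_left hS3 hI0
    linarith
  -- defects
  obtain ⟨p, hp⟩ : ∃ p, p = l1 - I := ⟨_, rfl⟩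
  obtain ⟨r, hr⟩ : ∃ r, r = S - l3 := ⟨_, rfl⟩
  obtain ⟨q, hq⟩ : ∃ q, q = S - l2 := ⟨_, rfl⟩
  obtain ⟨P, hPd⟩ : ∃ P, P = 1 + S - S * (99 / 100 + I) := ⟨_, rfl⟩
  obtain ⟨Q, hQd⟩ : ∃ Q, Q = I * (99 / 100 + S) - 1 - I := ⟨_, rfl⟩
  have hp0 : 0 ≤ p := by linarith
  have hr0 : 0 ≤ r := by linarith
  have hq0 : 0 ≤ q := by linarith
  have hP0 : 0 ≤ P := by linarith
  have hQ0 : 0 ≤ Q := by linarith
  have e1 : S * p + r = P := by
    rw [hp, hr, hPd]; linarith
  have e2 : q * I ≤ Q + p * (99 / 100 + S) := by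
    have h1' : l1 = I + p := by linarith
    have h2' : l2 = S - q := by linarith
    rw [h1', h2'] at a1
    have h3' : 0 ≤ q * p := mul_nonneg hq0 hp0
    linarith
  have e3 : S * (S - I) ≤ P + q * (99 / 100 + S) + S * r := by
    have h1' : l2 = S - q := by linarith
    have h2' : l3 = S - r := by linarith
    rw [h1', h2'] at a2
    have h3' : 0 ≤ q * r := mul_nonneg hq0 hr0
    linarith
  have e4 : P + Q = 1 / 100 * (S - I) := by rw [hPd, hQd]; ring
  have hSp : p ≤ S * p := le_mul_of_one_le_left hp0 hS1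
  have hpP : p ≤ P := by linarith
  have hrP : r ≤ P := by linarith
  have hq2 : q ≤ 3 * (Q + 4 * P) := by
    have t1 : p * (99 / 100 + S) ≤ p * 4 := mul_le_mul_of_nonneg_left (by linarith) hp0
    have t2 : q * (1 / 3) ≤ q * I := mul_le_mul_of_nonneg_left hI3 hq0
    linarith
  have e5 : S * (S - I) ≤ 52 * P + 12 * Q := by
    have t1 : q * (99 / 100 + S) ≤ q * 4 := mul_le_mul_of_nonneg_left (by linarith) hq0
    have t2 : S * r ≤ 3 * r := mul_le_mul_of_nonneg_right hS3 hr0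
    linarith
  have hD0 : 0 ≤ S - I := by linarith
  have hSD : S - I ≤ S * (S - I) := le_mul_of_one_le_left hD0 hS1
  have hD : S - I ≤ 0 := by linarith
  have hSI : S = I := le_antisymm (by linarith) hIS
  refine ⟨hSI, ?_⟩
  have hPQ : P = 0 := by
    rw [hSI] at e4
    linarith
  rw [hPd, hSI] at hPQ
  linarith

/-- For `A = 99/100`, `α = 1` every solution converges to the equilibrium. -/
theorem converges {x : ℕ → ℝ} (hx : IsSolution 1 (99 / 100) x) :
    Tendsto x atTop (𝓝 (xbar 1 (99 / 100))) := by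
  have h0 := nonneg hx
  obtain ⟨M, hM⟩ := bounded hx
  -- limits
  have key : ∀ L, MapClusterPt L atTop x → ∃ l : ℕ → ℝ, l 0 = L ∧
      (∀ j, l j * (99 / 100 + l (j + 1)) = 1 + l (j + 3)) ∧
      (∀ j, liminf x atTop ≤ l j) ∧ (∀ j, l j ≤ limsup x atTop) := by
    intro L hL
    obtain ⟨U, l, hU, hl, hl0, hlo, hup⟩ := X94.Lim.exists_lims h0 hM hL
    refine ⟨l, hl0, ?_, hlo, hup⟩
    intro j
    have t1 : Tendsto (fun n => x (n - j) * (99 / 100 + x (n - (j + 1)))) U
        (𝓝 (l j * (99 / 100 + l (j + 1)))) := (hl j).mul ((hl (j + 1)).const_add _)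
    have t2 : Tendsto (fun n => 1 + x (n - (j + 3))) U (𝓝 (1 + l (j + 3))) :=
      (hl (j + 3)).const_add _
    refine tendsto_nhds_unique (t1.congr' ?_) t2
    have hev : ∀ᶠ n in (U : Filter ℕ), j + 3 ≤ n := (eventually_ge_atTop _).filter_mono hU
    filter_upwards [hev] with n hn
    have := recur hx (n - (j + 3))
    rw [show n - (j + 3) + 3 = n - j by omega, show n - (j + 3) + 2 = n - (j + 1) by omega] at this
    exact this
  obtain ⟨l, hl0, hlr, hlo, hup⟩ := key _ (X94.Lim.cluster_limsup h0 hM)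
  obtain ⟨m, hm0, hmr, hmlo, hmup⟩ := key _ (X94.Lim.cluster_liminf h0 hM)
  have hI0 : 0 ≤ liminf x atTop := X94.Lim.le_liminf h0 hM
  have hIS : liminf x atTop ≤ limsup x atTop := X94.Lim.liminf_le h0 hM
  have a0 := hlr 0
  have b0 := hmr 0
  rw [hl0] at a0
  rw [hm0] at b0
  obtain ⟨hSI, hquad⟩ := squeeze hI0 hIS a0 (hlr 1) (hlr 2) b0 (hlo _) (hlo _) (hlo _) (hlo _)
    (hup _) (hup _) (hup _) (hup _) (hmup _) (hmlo _)
  have ht := X94.Lim.tendsto_of_eq h0 hM hSI.le
  have hxb : xbar 1 (99 / 100) = liminf x atTop := by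
    generalize liminf x atTop = I at hquad hI0
    unfold xbar
    have hI1 : 1 / 100 ≤ I := by nlinarith
    have h1 : Real.sqrt ((1 - 99 / 100) ^ 2 + 4 * 1) = 2 * I - 1 / 100 := by
      rw [show ((1 - 99 / 100 : ℝ)) ^ 2 + 4 * 1 = (2 * I - 1 / 100) ^ 2 by linarith]
      exact Real.sqrt_sq (by linarith)
    rw [h1]
    ring
  rw [hxb]
  exact ht

/-- The answer to Q1 is negative: for `A = 99/100` and `α = 1 < α₊(A)` every solution converges
to the equilibrium. -/
theorem result :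
    ((0 : ℝ) < 99 / 100 ∧ (99 / 100 : ℝ) < 1 ∧ (0 : ℝ) < 1 ∧ 1 < alphaPlus (99 / 100) ∧
      ∀ x : ℕ → ℝ, IsSolution 1 (99 / 100) x →
        Tendsto x atTop (𝓝 (xbar 1 (99 / 100)))) ∧ ¬ Q1 := by
  have hα : 1 < alphaPlus (99 / 100) := by
    unfold alphaPlus
    have h1 : (99 / 100 : ℝ) < Real.sqrt (5 * (99 / 100) ^ 2 - 4 * (99 / 100) ^ 3) := by
      apply Real.lt_sqrt_of_sq_lt
      norm_num
    linarith
  refine ⟨⟨by norm_num, by norm_num, by norm_num, hα, fun x hx => converges hx⟩, ?_⟩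
  intro h
  obtain ⟨x, hx, hn, -⟩ := h (99 / 100) (by norm_num) (by norm_num) 1 (by norm_num) hα
  exact hn (converges hx)

end Pool.Agent.Results.MP_efe010_an.AlwaysConverges
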